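import Mathlib
import Pool.Agent.N902.EW.Fi2

set_option autoImplicit false

/-!
# `ζ(3)`, `ζ(3) / π³`, Euler's constant, generalized Gompertz numbers at algebraic points and damped zeta integrals

Let `𝓔` be the field generated by all algebraic numbers and all numbers `exp b`, `b` algebraic. For
integers `l ≥ 1`, `k ≥ 2`, for positive real `x` and for complex `z` let
`δ_l(x) = ∫_0^∞ log (1 + s / x)^l exp (-s) ds` (`δ_1(1)` is Gompertz's constant) and
`T_k(z) = exp (-z) * ∑_j z^j/j! * ∑_{n > j} 1/n^k`, the Poisson mean of the tails of `ζ(k)`, which equals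
`1/(k-1)! * ∫_0^∞ t^(k-1) / (exp t - 1) * exp (-z (1 - exp (-t))) dt`.

Let `X` be a set of algebraic numbers `x` such that `x + x' ≠ 0` for all `x, x'` in `X` (for example
the set of the positive algebraic numbers).

(1) Let `y_1, …, y_r` be complex numbers and `P` a set of positive algebraic numbers `x` for which
`γ + log x` is algebraic over `𝓔(y_1, …, y_r)`. Let `c ≥ 0`. For every finite set `A` of names of
numbers `δ_l(x)`, `1 ≤ l ≤ 2c + 4`, `x ∈ P`, and `T_k(x)`, `2 ≤ k ≤ 2c + 4`, `x ∈ X`, the field generated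
over `𝓔` by `y_1, …, y_r, ζ(3), ζ(3) / π³, ζ(5), ζ(7), …, ζ(2c + 3)` and the numbers of `A` has
transcendence degree at least `|A|` over `𝓔`.

(2) In the situation of (1) at most `r + c + 2` of the numbers
`ζ(3), ζ(3) / π³, ζ(5), …, ζ(2c + 3), y_1, …, y_r`, `δ_l(x)` (`1 ≤ l ≤ 2c + 4`, `x ∈ P`) and
`T_k(x)` (`2 ≤ k ≤ 2c + 4`, `x ∈ X`) are algebraic over `𝓔`.

(3) Let `b_1, …, b_m` be positive algebraic numbers and `G` the set of the positive numbers of which a
power with exponent `≥ 1` is in the group generated by `b_1, …, b_m`. For every `c ≥ 0` at most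
`m + c + 3` of the numbers `ζ(3), ζ(3) / π³, ζ(5), …, ζ(2c + 3), γ, log b_1, …, log b_m`,
`δ_l(x)` (`1 ≤ l ≤ 2c + 4`, `x ∈ G`) and `T_k(x)` (`2 ≤ k ≤ 2c + 4`, `x ∈ X`) are algebraic over `𝓔`.

In (2) and (3) numbers of different names are counted separately.
-/

namespace Pool.Agent.Results.MP_e48a95_nt.GompertzAtAlgebraicPoints

open Set

/-- `δ_l(x) = ∫_0^∞ log (1 + s / x)^l e^(-s) ds` -/
noncomputable def delta (l : ℕ) (x : ℝ) : ℝ := ∫ s in Ioi (0 : ℝ), Real.log (1 + s / x) ^ l * Real.exp (-s)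

/-- `T_k(z)` -/
noncomputable def T (k : ℕ) (z : ℂ) : ℂ :=
  Complex.exp (-z) * ∑' j : ℕ, z ^ j / j.factorial * ∑' i : ℕ, 1 / ((i : ℂ) + j + 1) ^ k

/-- the field `𝓔` -/
noncomputable def expField : IntermediateField ℚ ℂ := IntermediateField.adjoin ℚ
  ({z | IsAlgebraic ℚ z} ∪ {z | ∃ b : ℂ, IsAlgebraic ℚ b ∧ z = Complex.exp b})

/-- `z` is algebraic over `𝓔` -/
def AlgebraicOver (z : ℂ) : Prop := IsAlgebraic expField z

/-- `z` is algebraic over `𝓔(y_1, …, y_r)` -/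
def AlgebraicOverAnd {r : ℕ} (y : Fin r → ℂ) (z : ℂ) : Prop :=
  IsAlgebraic (IntermediateField.adjoin expField (range y)) z

/-- the names of the numbers -/
inductive Name (c r : ℕ) : Type
  /-- `ζ(3)` -/
  | zetaThree : Name c r
  /-- `ζ(3) / π³` -/
  | ratio : Name c r
  /-- `ζ(5), ζ(7), …, ζ(2c + 3)` -/
  | oddZeta (i : Fin c) : Name c r
  /-- `y_1, …, y_r` -/
  | given (i : Fin r) : Name c r
  /-- `δ_l(x)`, `1 ≤ l ≤ 2c + 4` -/
  | gompertz (l : Fin (2 * c + 4)) (x : ℝ) : Name c r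
  /-- `T_k(x)`, `2 ≤ k ≤ 2c + 4` -/
  | mean (k : Fin (2 * c + 3)) (x : ℂ) : Name c r

/-- the numbers -/
noncomputable def value {c r : ℕ} (y : Fin r → ℂ) : Name c r → ℂ
  | .zetaThree => riemannZeta 3
  | .ratio => riemannZeta 3 / (Real.pi : ℂ) ^ 3
  | .oddZeta i => riemannZeta ((2 * i + 5 : ℕ) : ℂ)
  | .given i => y i
  | .gompertz l x => (delta (l + 1) x : ℂ)
  | .mean k x => T (k + 2) x

/-- the names of the numbers `δ_l(x)`, `x ∈ P`, and `T_k(x)`, `x ∈ X` -/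
def points (c r : ℕ) (P : Set ℝ) (X : Set ℂ) : Set (Name c r) :=
  {i | (∃ l x, x ∈ P ∧ i = .gompertz l x) ∨ ∃ k x, x ∈ X ∧ i = .mean k x}

/-- the names of the numbers `ζ(3), ζ(3) / π³, ζ(5), …, ζ(2c + 3), y_1, …, y_r` -/
def constants (c r : ℕ) : Set (Name c r) :=
  {i | i = .zetaThree ∨ i = .ratio ∨ (∃ j, i = .oddZeta j) ∨ ∃ j, i = .given j}

/-- the names of those of the numbers `ζ(3), ζ(3) / π³, ζ(5), …, ζ(2c + 3), y_1, …, y_r`, `δ_l(x)`, `x ∈ P`,
and `T_k(x)`, `x ∈ X`, which are algebraic over `𝓔` -/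
def algebraicNames (c : ℕ) {r : ℕ} (y : Fin r → ℂ) (P : Set ℝ) (X : Set ℂ) : Set (Name c r) :=
  {i | i ∈ constants c r ∪ points c r P X ∧ AlgebraicOver (value y i)}

/-- the positive numbers of which a power with exponent `≥ 1` is in the group generated by `b_1, …, b_m` -/
def group {m : ℕ} (b : Fin m → ℝ) : Set ℝ := {x | 0 < x ∧ ∃ n : ℕ, 1 ≤ n ∧ ∃ e : Fin m → ℤ, x ^ n = ∏ i, b i ^ e i}

/-- the numbers `γ, log b_1, …, log b_m` -/
noncomputable def logs {m : ℕ} (b : Fin m → ℝ) : Fin (m + 1) → ℂ :=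
  Fin.cons (Real.eulerMascheroniConstant : ℂ) fun i => (Real.log (b i) : ℂ)

open Pool.Agent.N902.EW in
theorem expField_eq : expField = E0 := rfl

/-- the enumeration of the constants -/
def cn (c r : ℕ) : Fin (c + 2 + r) → Name c r :=
  Fin.append (Fin.cons .zetaThree (Fin.cons .ratio .oddZeta) : Fin (c + 2) → Name c r) .given

theorem cn_surj {c r : ℕ} {i : Name c r} (h : i ∈ constants c r) : ∃ j, cn c r j = i := by
  rcases h with rfl | rfl | ⟨j, rfl⟩ | ⟨j, rfl⟩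
  · exact ⟨Fin.castAdd r 0, by rw [cn, Fin.append_left]; rfl⟩
  · exact ⟨Fin.castAdd r 1, by rw [cn, Fin.append_left]; rfl⟩
  · exact ⟨Fin.castAdd r j.succ.succ, by rw [cn, Fin.append_left, Fin.cons_succ, Fin.cons_succ]⟩
  · exact ⟨Fin.natAdd (c + 2) j, by rw [cn, Fin.append_right]⟩

theorem cn_mem {c r : ℕ} (j : Fin (c + 2 + r)) : cn c r j ∈ constants c r := by
  refine Fin.addCases (fun j => ?_) (fun j => ?_) j
  · rw [cn, Fin.append_left]
    refine Fin.cases ?_ (fun j => Fin.cases ?_ (fun j => ?_) j) j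
    · exact Or.inl rfl
    · exact Or.inr (Or.inl rfl)
    · exact Or.inr (Or.inr (Or.inl ⟨j, rfl⟩))
  · rw [cn, Fin.append_right]
    exact Or.inr (Or.inr (Or.inr ⟨j, rfl⟩))

/-- the values of the constants -/
noncomputable def cv {r : ℕ} (c : ℕ) (y : Fin r → ℂ) : Fin (c + 2 + r) → ℂ := fun j => value y (cn c r j)

theorem range_cv {r : ℕ} (c : ℕ) (y : Fin r → ℂ) : range (cv c y) = value y '' constants c r := by
  ext z
  constructor
  · rintro ⟨j, rfl⟩
    exact ⟨_, cn_mem j, rfl⟩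
  · rintro ⟨i, hi, rfl⟩
    obtain ⟨j, rfl⟩ := cn_surj hi
    exact ⟨j, rfl⟩

open Pool.Agent.N902.EW in
theorem const_mem {r c : ℕ} (y : Fin r → ℂ) {i : Name c r} (hi : i ∈ constants c r) :
    value y i ∈ clf E0 (range (cv c y)) := by
  refine subset_clf _ ?_
  rw [range_cv]
  exact ⟨i, hi, rfl⟩

open Pool.Agent.N902.EW in
theorem zeta_mem {r c : ℕ} (y : Fin r → ℂ) (k : ℕ) (hk : 2 ≤ k) (hk' : k ≤ 2 * c + 4) :
    riemannZeta k ∈ clf E0 (range (cv c y)) := by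
  have h3 : riemannZeta 3 ∈ clf E0 (range (cv c y)) := const_mem y (i := .zetaThree) (Or.inl rfl)
  have h4 : riemannZeta 3 / (Real.pi : ℂ) ^ 3 ∈ clf E0 (range (cv c y)) := const_mem y (i := .ratio) (Or.inr (Or.inl rfl))
  have hz : riemannZeta 3 ≠ 0 := by
    refine riemannZeta_ne_zero_of_one_lt_re ?_
    norm_num
  have hpi0 : (Real.pi : ℂ) ≠ 0 := by exact_mod_cast Real.pi_ne_zero
  have hpi : (Real.pi : ℂ) ∈ clf E0 (range (cv c y)) := by
    refine clf_pow (F := E0) (n := 3) (by norm_num) ?_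
    have h5 : (Real.pi : ℂ) ^ 3 = riemannZeta 3 / (riemannZeta 3 / (Real.pi : ℂ) ^ 3) := by
      field_simp
    rw [h5]
    exact (clf E0 _).div_mem h3 h4
  rcases Nat.even_or_odd' k with ⟨j, rfl | rfl⟩
  · have h6 := riemannZeta_two_mul_nat (k := j) (by omega)
    push_cast at h6 ⊢
    rw [h6]
    refine (clf E0 _).div_mem ((clf E0 _).mul_mem ((clf E0 _).mul_mem ((clf E0 _).mul_mem ?_ ?_) ?_) ?_) ?_
    · exact (clf E0 _).pow_mem ((clf E0 _).neg_mem (clf E0 _).one_mem) _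
    · exact (clf E0 _).pow_mem (ofNat_mem _ _) _
    · exact (clf E0 _).pow_mem hpi _
    · exact E0_le_clf (SubfieldClass.ratCast_mem E0 _)
    · exact natCast_mem (clf E0 _) _
  · rcases Nat.lt_or_ge j 2 with hj | hj
    · have : j = 1 := by omega
      subst this
      norm_num
      exact h3
    · have h7 := const_mem y (i := .oddZeta (⟨j - 2, by omega⟩ : Fin c)) (Or.inr (Or.inr (Or.inl ⟨_, rfl⟩)))
      have h8 : 2 * (j - 2) + 5 = 2 * j + 1 := by omega
      have h9 : value y (.oddZeta (⟨j - 2, by omega⟩ : Fin c) : Name c r) = riemannZeta ((2 * (j - 2) + 5 : ℕ) : ℂ) := rfl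
      rw [h9, h8] at h7
      exact h7

open Pool.Agent.N902.EW in
/-- the names as names of the counting theorem -/
def dec {c r : ℕ} {P : Set ℝ} {X : Set ℂ} : Fin (c + 2 + r) ⊕ Ix (2 * c + 4) P X → Name c r :=
  Sum.elim (cn c r) (Sum.elim (fun p => .mean ⟨p.1.1 - 2, by have := p.2.2.1; have := p.2.1; omega⟩ p.1.2)
    (fun p => .gompertz ⟨p.1.1 - 1, by have := p.2.2.1; have := p.2.1; omega⟩ p.1.2))

open Pool.Agent.N902.EW in
theorem value_dec {c r : ℕ} {P : Set ℝ} {X : Set ℂ} (y : Fin r → ℂ) (i : Ix (2 * c + 4) P X) :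
    value y (dec (r := r) (Sum.inr i)) = nu i := by
  rcases i with p | p
  · show T (p.1.1 - 2 + 2) p.1.2 = PT p.1.1 p.1.2
    have h := p.2.1
    rw [Nat.sub_add_cancel h]
    rfl
  · show (delta (p.1.1 - 1 + 1) p.1.2 : ℂ) = ((Pool.Agent.R352.E.dl p.1.1 p.1.2 : ℝ) : ℂ)
    have h := p.2.1
    rw [Nat.sub_add_cancel h]
    rfl

open Pool.Agent.N902.EW in
theorem dec_surj {c r : ℕ} {P : Set ℝ} {X : Set ℂ} {i : Name c r} (h : i ∈ points c r P X) :
    ∃ j : Ix (2 * c + 4) P X, dec (r := r) (Sum.inr j) = i := by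
  rcases h with ⟨l, x, hx, rfl⟩ | ⟨k, x, hx, rfl⟩
  · have := l.2
    refine ⟨Sum.inr ⟨(l.1 + 1, x), by simp, by simpa using by omega, hx⟩, ?_⟩
    simp [dec]
  · have := k.2
    refine ⟨Sum.inl ⟨(k.1 + 2, x), by simp, by simpa using by omega, hx⟩, ?_⟩
    simp [dec]

open Pool.Agent.N902.EW in
theorem main {c r : ℕ} (y : Fin r → ℂ) (P : Set ℝ)
    (hP : ∀ x ∈ P, 0 < x ∧ IsAlgebraic ℚ x ∧ AlgebraicOverAnd y (Real.eulerMascheroniConstant + Real.log x))
    (X : Set ℂ) (hX : ∀ x ∈ X, IsAlgebraic ℚ x ∧ ∀ x' ∈ X, x + x' ≠ 0) :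
    (algebraicNames c y P X).encard ≤ ((r + c + 2 : ℕ) : ℕ∞) := by
  have hsub : range y ⊆ range (cv c y) := by
    rw [range_cv]
    rintro _ ⟨j, rfl⟩
    exact ⟨.given j, Or.inr (Or.inr (Or.inr ⟨j, rfl⟩)), rfl⟩
  have h := count_G (2 * c + 4) P (fun x hx => ⟨(hP x hx).1, (hP x hx).2.1⟩) X hX (cv c y)
    (fun k h2 hk => mem_clf.1 (zeta_mem y k h2 hk)) (fun x hx => by
      refine mem_clf.1 (clf_mono hsub (mem_clf.2 ?_))
      have := (hP x hx).2.2
      push_cast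
      exact this)
  have e : ((r + c + 2 : ℕ) : ℕ∞) = ((c + 2 + r : ℕ) : ℕ∞) := by
    congr 1
    ring
  rw [e]
  refine le_trans ?_ h
  refine le_trans (encard_le_encard ?_) (encard_image_le (dec (c := c) (r := r) (P := P) (X := X)) _)
  rintro i ⟨hi | hi, ha⟩
  · obtain ⟨j, rfl⟩ := cn_surj hi
    exact ⟨Sum.inl j, ha, rfl⟩
  · obtain ⟨j, rfl⟩ := dec_surj hi
    refine ⟨Sum.inr j, ?_, rfl⟩
    show IsAlgebraic E0 (nu j)
    rw [← value_dec y j]
    exact ha

open Pool.Agent.N902.EW in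
theorem main_trdeg {c r : ℕ} (y : Fin r → ℂ) (P : Set ℝ)
    (hP : ∀ x ∈ P, 0 < x ∧ IsAlgebraic ℚ x ∧ AlgebraicOverAnd y (Real.eulerMascheroniConstant + Real.log x))
    (X : Set ℂ) (hX : ∀ x ∈ X, IsAlgebraic ℚ x ∧ ∀ x' ∈ X, x + x' ≠ 0)
    (A : Finset (Name c r)) (hA : (A : Set (Name c r)) ⊆ points c r P X) :
    (A.card : Cardinal) ≤ Algebra.trdeg expField (IntermediateField.adjoin expField
      (value y '' (constants c r ∪ (A : Set (Name c r))))) := by
  classical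
  have hsub : range y ⊆ range (cv c y) := by
    rw [range_cv]
    rintro _ ⟨j, rfl⟩
    exact ⟨.given j, Or.inr (Or.inr (Or.inr ⟨j, rfl⟩)), rfl⟩
  choose f hf using fun i : A => dec_surj (hA i.2)
  have hfi : Function.Injective f := by
    intro i j hij
    apply Subtype.ext
    rw [← hf i, ← hf j, hij]
  have h := trdeg_G (2 * c + 4) P (fun x hx => ⟨(hP x hx).1, (hP x hx).2.1⟩) X hX (cv c y)
    (fun k h2 hk => mem_clf.1 (zeta_mem y k h2 hk)) (fun x hx => by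
      refine mem_clf.1 (clf_mono hsub (mem_clf.2 ?_))
      have := (hP x hx).2.2
      push_cast
      exact this) (Finset.univ.map ⟨f, hfi⟩)
  rw [Finset.card_map, Finset.card_univ, Fintype.card_coe] at h
  have e : (range (cv c y) ∪ nu '' ((Finset.univ.map ⟨f, hfi⟩ : Finset (Ix (2 * c + 4) P X)) : Set (Ix (2 * c + 4) P X))) =
      value y '' (constants c r ∪ (A : Set (Name c r))) := by
    rw [image_union, range_cv]
    congr 1
    ext z
    constructor
    · rintro ⟨i, hi, rfl⟩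
      simp only [Finset.coe_map, Finset.coe_univ, image_univ, mem_range, Function.Embedding.coeFn_mk] at hi
      obtain ⟨j, rfl⟩ := hi
      refine ⟨j, j.2, ?_⟩
      rw [← value_dec y, hf]
    · rintro ⟨i, hi, rfl⟩
      refine ⟨f ⟨i, hi⟩, ?_, ?_⟩
      · simp
      · rw [← value_dec y, hf]
  rw [e] at h
  exact h

theorem group_alg {m : ℕ} {b : Fin m → ℝ} (hb : ∀ i, 0 < b i ∧ IsAlgebraic ℚ (b i)) {x : ℝ} (hx : x ∈ group b) :
    IsAlgebraic ℚ x := by
  obtain ⟨h0, n, hn, e, he⟩ := hx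
  refine IsAlgebraic.of_pow (n := n) (by omega) ?_
  rw [he]
  have h1 : ∀ z : ℝ, IsAlgebraic ℚ z ↔ z ∈ algebraicClosure ℚ ℝ := fun z => by
    rw [mem_algebraicClosure_iff]
  rw [h1]
  exact prod_mem fun i _ => zpow_mem ((h1 _).1 (hb i).2) _

open Pool.Agent.N902.EW in
theorem group_log {m : ℕ} {b : Fin m → ℝ} (hb : ∀ i, 0 < b i ∧ IsAlgebraic ℚ (b i)) {x : ℝ} (hx : x ∈ group b) :
    AlgebraicOverAnd (logs b) (Real.eulerMascheroniConstant + Real.log x) := by
  obtain ⟨h0, n, hn, e, he⟩ := hx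
  have h1 : (n : ℝ) * Real.log x = ∑ i, (e i : ℝ) * Real.log (b i) := by
    rw [← Real.log_pow, he, Real.log_prod]
    · refine Finset.sum_congr rfl fun i _ => ?_
      rw [Real.log_zpow]
    · intro i _
      exact zpow_ne_zero _ (hb i).1.ne'
  have hn0 : (n : ℝ) ≠ 0 := by
    have : n ≠ 0 := by omega
    exact_mod_cast this
  have h2 : Real.log x = (∑ i, (e i : ℝ) * Real.log (b i)) / n := by
    rw [← h1]
    field_simp
  refine mem_clf.1 ?_
  show _ ∈ clf E0 (range (logs b))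
  rw [h2]
  have h3 : ∀ i, logs b i ∈ clf E0 (range (logs b)) := fun i => subset_clf _ ⟨i, rfl⟩
  push_cast
  refine (clf E0 _).add_mem (h3 0) ((clf E0 _).div_mem ((clf E0 _).sum_mem fun i _ => (clf E0 _).mul_mem ?_ ?_) ?_)
  · exact intCast_mem (clf E0 _) _
  · exact h3 i.succ
  · exact natCast_mem (clf E0 _) _

theorem result :
    -- (1) and (2)
    (∀ (c r : ℕ) (y : Fin r → ℂ) (P : Set ℝ) (X : Set ℂ),
      (∀ x ∈ P, 0 < x ∧ IsAlgebraic ℚ x ∧ AlgebraicOverAnd y (Real.eulerMascheroniConstant + Real.log x)) →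
      (∀ x ∈ X, IsAlgebraic ℚ x ∧ ∀ x' ∈ X, x + x' ≠ 0) →
      (∀ A : Finset (Name c r), (A : Set (Name c r)) ⊆ points c r P X →
        (A.card : Cardinal) ≤ Algebra.trdeg expField (IntermediateField.adjoin expField
          (value y '' (constants c r ∪ (A : Set (Name c r)))))) ∧
      (algebraicNames c y P X).encard ≤ ((r + c + 2 : ℕ) : ℕ∞)) ∧
    -- (3)
    (∀ (c m : ℕ) (b : Fin m → ℝ) (X : Set ℂ), (∀ i, 0 < b i ∧ IsAlgebraic ℚ (b i)) →
      (∀ x ∈ X, IsAlgebraic ℚ x ∧ ∀ x' ∈ X, x + x' ≠ 0) →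
      (algebraicNames c (logs b) (group b) X).encard ≤ ((m + c + 3 : ℕ) : ℕ∞)) := by
  refine ⟨fun c r y P X hP hX => ⟨main_trdeg y P hP X hX, main y P hP X hX⟩, fun c m b X hb hX => ?_⟩
  have h := main (c := c) (logs b) (group b) (fun x hx => ⟨hx.1, group_alg hb hx, group_log hb hx⟩) X hX
  refine h.trans_eq ?_
  congr 1
  ring

end Pool.Agent.Results.MP_e48a95_nt.GompertzAtAlgebraicPoints
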