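import Mathlib
import Pool.Agent.R352.E.Cnt
import Pool.Agent.N778.EM.Final

set_option autoImplicit false

/-!
# A joint measure of transcendence over `ℚ(e)` for `ζ(3)`, `ζ(3) / π³`, Euler's constant and Gompertz numbers

For an integer `l ≥ 1` and a positive rational number `x` let
`δ_l(x) = ∫_0^∞ log (1 + s / x)^l e^(-s) ds` (`δ_1(1)` is Gompertz's constant).

A family of real numbers `v_i` (`i ∈ ν`) has a *joint measure* over `ℚ(e)` if for every `D` there are `κ` and `c > 0`
such that for all `H ≥ 1` and all nonzero polynomials `P_i` (`i ∈ ν`) in two variables with integral coefficients, of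
total degree at most `D` and with coefficients at most `H` in absolute value
`max_i |P_i(v_i, e)| ≥ c / H^κ`.
So the numbers `v_i` cannot be algebraic over `ℚ(e)` at the same time, they cannot even be simultaneously well
approximable by numbers algebraic over `ℚ(e)` of bounded degree.

(1) Let `y_1, …, y_r` be real numbers and `P` a set of positive rational numbers `x` for which
`γ + log x` is algebraic over `ℚ(e, y_1, …, y_r)`. For every `c ≥ 0` any `r + c + 3` of the numbers
`ζ(3), ζ(3) / π³, ζ(5), …, ζ(2c + 3), y_1, …, y_r` and `δ_l(x)` (`1 ≤ l ≤ 2c + 4`, `x ∈ P`) have a joint measure over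
`ℚ(e)`.

(2) Let `G` be the multiplicative group generated by positive rational numbers `b_1, …, b_m`. For every `c ≥ 0` any
`m + c + 4` of the numbers `ζ(3), ζ(3) / π³, ζ(5), …, ζ(2c + 3), γ, log b_1, …, log b_m` and `δ_l(x)`
(`1 ≤ l ≤ 2c + 4`, `x ∈ G`) have a joint measure over `ℚ(e)`.

(3) In the situation of (2) any `m + 2` of the numbers `γ, log b_1, …, log b_m` and `δ_1(x)` (`x ∈ G`) have a joint
measure over `ℚ(e)`. For `m = 0` these are `γ` and Gompertz's constant.

In (1), (2) and (3) numbers of different names are counted separately.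
-/

namespace Pool.Agent.Results.MP_e48a95_nt.GompertzMeasure

open Set

/-- the zeta value `ζ(s) = ∑ 1 / n^s` -/
noncomputable def zeta (s : ℕ) : ℝ := ∑' n : ℕ, 1 / ((n : ℝ) + 1) ^ s

/-- `δ_l(x) = ∫_0^∞ log (1 + s / x)^l e^(-s) ds` -/
noncomputable def delta (l : ℕ) (x : ℚ) : ℝ :=
  ∫ s in Ioi (0 : ℝ), Real.log (1 + s / (x : ℝ)) ^ l * Real.exp (-s)

/-- `x` is algebraic over `ℚ(e, y_1, …, y_r)` -/
def AlgebraicOverEAnd {r : ℕ} (y : Fin r → ℝ) (x : ℝ) : Prop :=
  IsAlgebraic (IntermediateField.adjoin ℚ ({Real.exp 1} ∪ range y)) x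

/-- The numbers `v_i` have a joint measure over `ℚ(e)`: for every `D` there are `κ` and `c > 0` such that for all
nonzero integral polynomials `P_i` in two variables, of degree at most `D` and with coefficients at most `H ≥ 1` in
absolute value, one of the numbers `P_i(v_i, e)` is at least `c / H^κ` in absolute value. -/
def JointMeasure {ν : Type} (v : ν → ℝ) : Prop :=
  ∀ D : ℕ, ∃ κ : ℕ, ∃ c : ℝ, 0 < c ∧ ∀ P : ν → MvPolynomial (Fin 2) ℤ, (∀ i, P i ≠ 0) →
    (∀ i, (P i).totalDegree ≤ D) → ∀ H : ℝ, 1 ≤ H → (∀ i s, |(((P i).coeff s : ℤ) : ℝ)| ≤ H) →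
      ∃ i, c / H ^ κ ≤ |MvPolynomial.aeval ![v i, Real.exp 1] (P i)|

/-- the names of the numbers -/
inductive Name (c r : ℕ) : Type
  /-- `ζ(3)` -/
  | zetaThree : Name c r
  /-- `ζ(3) / π³` -/
  | ratio : Name c r
  /-- `ζ(5), ζ(7), …, ζ(2c + 3)` -/
  | oddZeta (i : Fin c) : Name c r
  /-- `y_1, …, y_r` -/
  | given (i : Fin r) : Name c r
  /-- `δ_l(x)`, `1 ≤ l ≤ 2c + 4` -/
  | gompertz (l : Fin (2 * c + 4)) (x : ℚ) : Name c r

/-- the numbers -/
noncomputable def value {c r : ℕ} (y : Fin r → ℝ) : Name c r → ℝ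
  | .zetaThree => zeta 3
  | .ratio => zeta 3 / Real.pi ^ 3
  | .oddZeta i => zeta (2 * i + 5)
  | .given i => y i
  | .gompertz l x => delta (l + 1) x

/-- the multiplicative group generated by `b_1, …, b_m` -/
def group {m : ℕ} (b : Fin m → ℚ) : Set ℚ := {x | ∃ n : Fin m → ℤ, x = ∏ i, b i ^ n i}

/-- the numbers `γ, log b_1, …, log b_m` -/
noncomputable def logs {m : ℕ} (b : Fin m → ℚ) : Fin (m + 1) → ℝ :=
  Fin.cons Real.eulerMascheroniConstant fun i => Real.log (b i)

/-- the encoding of the names used in the proof -/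
def enc {c r : ℕ} : Name c r → Fin (c + 2) ⊕ Fin r ⊕ (Fin (2 * c + 4) × ℚ)
  | .zetaThree => Sum.inl 0
  | .ratio => Sum.inl 1
  | .oddZeta i => Sum.inl i.succ.succ
  | .given i => Sum.inr (Sum.inl i)
  | .gompertz l x => Sum.inr (Sum.inr (l, x))

theorem enc_injective {c r : ℕ} : Function.Injective (enc (c := c) (r := r)) := by
  intro i j h
  cases i <;> cases j <;> simp_all [enc, Fin.ext_iff]

theorem enc_value {c r : ℕ} (y : Fin r → ℝ) (i : Name c r) :
    Pool.Agent.R352.E.gval (2 * c + 4) (Pool.Agent.R352.E.con3 c) y (enc i) = value y i := by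
  cases i <;> simp [enc, value, Pool.Agent.R352.E.gval, Pool.Agent.R352.E.con3, zeta, delta,
    Pool.Agent.R352.E.zt, Pool.Agent.R352.E.dl]

theorem jointMeasure_of {ν : Type} {v : ν → ℝ} (h : Pool.Agent.N778.EM.Joint (fun _ : Fin 1 => Real.exp 1) v) :
    JointMeasure v := by
  intro D
  obtain ⟨κ, c, hc, h1⟩ := h D
  refine ⟨κ, c, hc, fun P hP0 hPD H hH hPH => ?_⟩
  obtain ⟨i, hi⟩ := h1 P hP0 hPD H hH hPH
  refine ⟨i, ?_⟩
  have e1 : (Fin.cons (v i) (fun _ : Fin 1 => Real.exp 1) : Fin 2 → ℝ) = ![v i, Real.exp 1] := by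
    funext j
    fin_cases j <;> rfl
  rw [e1] at hi
  have hHk : 0 < H ^ κ := by positivity
  rw [div_le_iff₀ hHk, mul_comm]
  exact hi

/-- the constants generate the zeta values -/
theorem con3_mem (c : ℕ) (l : Fin (2 * c + 4)) (x : ℚ) (hx : 0 < x) (T : Set ℝ)
    (hcon : ∀ i, Pool.Agent.R352.E.con3 c i ∈ Pool.Agent.R352.E.clF T)
    (he : Real.exp 1 ∈ Pool.Agent.R352.E.clF T)
    (h0 : Real.eulerMascheroniConstant + Real.log x ∈ Pool.Agent.R352.E.clF T)
    (hd : Pool.Agent.R352.E.dl (l + 1) x ∈ Pool.Agent.R352.E.clF T) :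
    Pool.Agent.R352.E.EE (l + 1) x ∈ Pool.Agent.R352.E.clF T := by
  open Pool.Agent.R352.E in
  have hpi : Real.pi ∈ clF T := by
    have h1 : zt 3 ∈ clF T := hcon 0
    have h2 : zt 3 / Real.pi ^ 3 ∈ clF T := hcon 1
    refine of_pow (n := 3) (by norm_num) ?_
    have h3 : Real.pi ^ 3 = zt 3 / (zt 3 / Real.pi ^ 3) := by
      have := zt3_pos.ne'
      have := Real.pi_ne_zero
      field_simp
    rw [h3]
    exact (clF T).div_mem h1 h2
  open Pool.Agent.R352.E in
  refine EE_mem hx he h0 (l + 1) (fun k hk hk' => ?_) (by exact_mod_cast hd)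
  open Pool.Agent.R352.E in
  refine zt_all hpi (c + 1) (fun i hi => ?_) k hk ?_
  · cases i with
    | zero => exact hcon 0
    | succ i =>
      have := hcon (Fin.succ (Fin.succ ⟨i, by omega⟩))
      simp only [Pool.Agent.R352.E.con3, Fin.cons_succ] at this
      have e : 2 * (i + 1) + 3 = 2 * i + 5 := by ring
      rw [e]
      exact this
  · have := l.2
    omega

theorem main {c r : ℕ} (y : Fin r → ℝ) (P : Set ℚ)
    (hP : ∀ x ∈ P, 0 < x ∧ AlgebraicOverEAnd y (Real.eulerMascheroniConstant + Real.log x))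
    (S : Finset (Name c r)) (hS : ∀ l x, .gompertz l x ∈ S → x ∈ P) (hcard : r + c + 3 ≤ S.card) :
    JointMeasure fun i : S => value y (i : Name c r) := by
  classical
  have h := Pool.Agent.N778.EM.joint_main (J := 2 * c + 4) (Pool.Agent.R352.E.con3 c) y (con3_mem c)
    (S.map ⟨enc, enc_injective⟩) ?_ ?_
  · refine jointMeasure_of (h.mono (fun i => ⟨(Finset.mem_map.1 i.2).choose, (Finset.mem_map.1 i.2).choose_spec.1⟩) ?_)
    intro i
    have h1 := (Finset.mem_map.1 i.2).choose_spec.2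
    rw [← enc_value]
    exact congrArg _ h1
  · intro p hp
    obtain ⟨j, hj, hjp⟩ := Finset.mem_map.1 hp
    have h1 : j = .gompertz p.1 p.2 := enc_injective hjp
    rw [h1] at hj
    have h2 := hP p.2 (hS _ _ hj)
    exact ⟨h2.1, Pool.Agent.R352.E.mem_clF.2 h2.2⟩
  · rw [Finset.card_map]
    omega

theorem group_pos {m : ℕ} {b : Fin m → ℚ} (hb : ∀ i, 0 < b i) {x : ℚ} (hx : x ∈ group b) : 0 < x := by
  obtain ⟨n, rfl⟩ := hx
  exact Finset.prod_pos fun i _ => zpow_pos (hb i) _

theorem group_log {m : ℕ} {b : Fin m → ℚ} (hb : ∀ i, 0 < b i) {x : ℚ} (hx : x ∈ group b) :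
    AlgebraicOverEAnd (logs b) (Real.eulerMascheroniConstant + Real.log x) := by
  obtain ⟨n, rfl⟩ := hx
  have h1 : Real.log ((∏ i, b i ^ n i : ℚ) : ℝ) = ∑ i, (n i : ℝ) * Real.log (b i) := by
    push_cast
    rw [Real.log_prod]
    · refine Finset.sum_congr rfl fun i _ => ?_
      rw [Real.log_zpow]
    · intro i _
      have : (b i : ℝ) ≠ 0 := by exact_mod_cast (hb i).ne'
      exact zpow_ne_zero _ this
  refine Pool.Agent.R352.E.mem_clF.1 ?_
  rw [h1]
  have h2 : ∀ i, logs b i ∈ Pool.Agent.R352.E.clF ({Real.exp 1} ∪ range (logs b)) := fun i =>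
    Pool.Agent.R352.E.subset_clF _ (Or.inr ⟨i, rfl⟩)
  refine Subfield.add_mem _ (h2 0) (Subfield.sum_mem _ fun i _ => Subfield.mul_mem _ (intCast_mem _ _) ?_)
  exact h2 i.succ

/-- level one -/
theorem level_one {m : ℕ} {b : Fin m → ℚ} (hb : ∀ i, 0 < b i) (S : Finset (Fin (m + 1) ⊕ ℚ))
    (hS : ∀ x, .inr x ∈ S → x ∈ group b) (hcard : m + 2 ≤ S.card) :
    JointMeasure fun i : S => Sum.elim (logs b) (delta 1) i := by
  classical
  let enc1 : Fin (m + 1) ⊕ ℚ → Fin 0 ⊕ Fin (m + 1) ⊕ (Fin 1 × ℚ) := fun i =>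
    Sum.inr (Sum.map id (fun x => ((0 : Fin 1), x)) i)
  have hinj : Function.Injective enc1 := by
    refine Sum.inr_injective.comp (Function.Injective.sumMap Function.injective_id ?_)
    intro x x' h
    exact congrArg Prod.snd h
  have hval : ∀ i, Pool.Agent.R352.E.gval 1 (Fin.elim0 : Fin 0 → ℝ) (logs b) (enc1 i) =
      Sum.elim (logs b) (delta 1) i := by
    intro i
    rcases i with i | x
    · rfl
    · simp [enc1, Pool.Agent.R352.E.gval, delta, Pool.Agent.R352.E.dl]
  have h := Pool.Agent.N778.EM.joint_main (J := 1) (Fin.elim0 : Fin 0 → ℝ) (logs b) ?_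
    (S.map ⟨enc1, hinj⟩) ?_ ?_
  · refine jointMeasure_of (h.mono (fun i => ⟨(Finset.mem_map.1 i.2).choose, (Finset.mem_map.1 i.2).choose_spec.1⟩) ?_)
    intro i
    have h1 := (Finset.mem_map.1 i.2).choose_spec.2
    rw [← hval]
    exact congrArg _ h1
  · intro l x hx T _ he h0 hd
    refine Pool.Agent.R352.E.EE_mem hx he h0 (l + 1) (fun k hk hk' => ?_) (by exact_mod_cast hd)
    have := l.2
    omega
  · intro p hp
    obtain ⟨j, hj, hjp⟩ := Finset.mem_map.1 hp
    have h1 : j = .inr p.2 := hinj (by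
      rw [Function.Embedding.coeFn_mk] at hjp
      rw [hjp]
      have : p.1 = 0 := Subsingleton.elim _ _
      simp [enc1, ← this])
    rw [h1] at hj
    exact ⟨group_pos hb (hS _ hj), Pool.Agent.R352.E.mem_clF.2 (group_log hb (hS _ hj))⟩
  · rw [Finset.card_map]
    omega

theorem result :
    -- (1)
    (∀ (c r : ℕ) (y : Fin r → ℝ) (P : Set ℚ),
      (∀ x ∈ P, 0 < x ∧ AlgebraicOverEAnd y (Real.eulerMascheroniConstant + Real.log x)) →
      ∀ S : Finset (Name c r), (∀ l x, .gompertz l x ∈ S → x ∈ P) → r + c + 3 ≤ S.card →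
        JointMeasure fun i : S => value y (i : Name c r)) ∧
    -- (2)
    (∀ (c m : ℕ) (b : Fin m → ℚ), (∀ i, 0 < b i) →
      ∀ S : Finset (Name c (m + 1)), (∀ l x, .gompertz l x ∈ S → x ∈ group b) → m + c + 4 ≤ S.card →
        JointMeasure fun i : S => value (logs b) (i : Name c (m + 1))) ∧
    -- (3)
    (∀ (m : ℕ) (b : Fin m → ℚ), (∀ i, 0 < b i) →
      ∀ S : Finset (Fin (m + 1) ⊕ ℚ), (∀ x, .inr x ∈ S → x ∈ group b) → m + 2 ≤ S.card →
        JointMeasure fun i : S => Sum.elim (logs b) (delta 1) i) := by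
  refine ⟨fun c r y P hP S hS hcard => main y P hP S hS hcard, fun c m b hb S hS hcard => ?_,
    fun m b hb S hS hcard => level_one hb S hS hcard⟩
  exact main (logs b) (group b) (fun x hx => ⟨group_pos hb hx, group_log hb hx⟩) S hS (by omega)

end Pool.Agent.Results.MP_e48a95_nt.GompertzMeasure
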