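import Pool.Agent.N909.NR.Gen
import Pool.Agent.TH817.Z3.Z
import Pool.Agent.TH250.Z3.Arch
import Pool.Agent.H340R2.LW

set_option autoImplicit false

/-!
# Near relations between `1`, `ζ(3)` and a real number `ξ` at all scales of an interval

Let `ξ` be a real number (for instance `ξ = π ^ 3` or `ξ = γ`) and `w ≥ 5.4982`. If at every scale
`X ∈ [Y, Z]` there is a nonzero integer vector `(a, b, c)` with `|b|, |c| ≤ X` and
`|a + b ζ(3) + c ξ| ≤ X ^ (-w)`, then there is a single nonzero vector of height `≤ Y ^ κ` (any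
`κ ≥ 1` with `κ (w - 4.68) > 3.68`; `κ = 4.5` is always allowed, and `κ = 1` if `w > 8.36`) which is
a near relation of precision `Z ^ (-w)`. The constants do not depend on `ξ`. In particular
(`Z → ∞`) near relations at all large scales force an exact relation: for every `w ≥ 5.4982` the
numbers `1`, `ζ(3)`, `ξ` are linearly dependent over `ℚ` if and only if there are near relations of
exponent `w` at all large scales. If this happens for `ξ = π ^ 3` then `ζ(3)` is transcendental and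
`ζ(3) / π ^ 3` is rational or transcendental.

The exponent is `1 + (ω + √(ω² + 4 ω)) / 2 = 5.49811...`, `ω = 3.68`, where `|q ζ(3) - p| ≥ c q ^ (-ω)`
(starting result `MP_48b3e2_nt.ZetaThreeExponentC`). Sketch: consecutive best relations `v_k`,
`v_{k+1}` of heights `X_k < X_{k+1}` have values `≤ X_{k+1} ^ (-w)`, up to constants. Elimination of
`ξ` gives `X_{k+1} ^ (w - 1) ≤ (X_k X_{k+1}) ^ ω`. If three consecutive ones are linearly
independent then their determinant gives `X_{k+1} ^ (w - 1) ≤ X_{k+2}`, and both together are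
impossible. If they are dependent the fraction `p / q` next to `ζ(3)` which comes from the
elimination remains the same in lowest terms, so `X_{k+1} ^ (w - 1) ≤ (X_0 X_1) ^ ω` for all `k`.
-/

namespace Pool.Agent.Results.MP_e48a95_nt.NearRelationsAllScales

/-- `ζ(3)` -/
noncomputable def zeta3 : ℝ := ∑' n : ℕ, 1 / ((n : ℝ) + 1) ^ 3

/-- `a + b ζ(3) + c ξ` for `v = (a, b, c)` -/
noncomputable def value (ξ : ℝ) (v : ℤ × ℤ × ℤ) : ℝ := v.1 + v.2.1 * zeta3 + v.2.2 * ξ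

/-- the height `max (|b|, |c|)` of `v = (a, b, c)` -/
def height (v : ℤ × ℤ × ℤ) : ℕ := max v.2.1.natAbs v.2.2.natAbs

/-- there is a nonzero `v = (a, b, c)` with `|b|, |c| ≤ H` and `|a + b ζ(3) + c ξ| ≤ δ` -/
def Near (ξ H δ : ℝ) : Prop := ∃ v : ℤ × ℤ × ℤ, v ≠ 0 ∧ (height v : ℝ) ≤ H ∧ |value ξ v| ≤ δ

/-- the measure of irrationality of `ζ(3)` -/
theorem meas : ∃ c : ℝ, 0 < c ∧ ∀ Q : ℕ, 1 ≤ Q → ∀ m : ℤ, c ≤ (Q : ℝ) ^ (3.68 : ℝ) * |Q * zeta3 - m| := by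
  obtain ⟨c, hc0, hc⟩ := Pool.Agent.TH817.Z3.Z_pre Pool.Agent.TH250.Z3.AM
  refine ⟨c, hc0, fun Q hQ m => ?_⟩
  have hQ0 : (0 : ℝ) < Q := by exact_mod_cast hQ
  have h : c / (Q : ℝ) ^ ((468 : ℝ) / 100) ≤ |(∑' n : ℕ, 1 / ((n : ℝ) + 1) ^ 3) - (m : ℝ) / Q| :=
    hc m Q (by omega)
  rw [div_le_iff₀ (by positivity)] at h
  have e : (Q : ℝ) ^ ((468 : ℝ) / 100) = (Q : ℝ) ^ (3.68 : ℝ) * Q := by
    nth_rewrite 3 [← Real.rpow_one (Q : ℝ)]
    rw [← Real.rpow_add hQ0]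
    norm_num
  have e2 : |(∑' n : ℕ, 1 / ((n : ℝ) + 1) ^ 3) - (m : ℝ) / Q| * Q = |Q * zeta3 - m| := by
    have : (Q : ℝ) * zeta3 - m = ((∑' n : ℕ, 1 / ((n : ℝ) + 1) ^ 3) - (m : ℝ) / Q) * Q := by
      unfold zeta3
      field_simp
    rw [this, abs_mul, abs_of_pos hQ0]
  rw [e] at h
  calc c ≤ _ := h
    _ = (Q : ℝ) ^ (3.68 : ℝ) * (|(∑' n : ℕ, 1 / ((n : ℝ) + 1) ^ 3) - (m : ℝ) / Q| * Q) := by ring
    _ = _ := by rw [e2]

open Pool.Agent.N493.NR in
/-- near relations at all scales of an interval -/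
theorem main (w κ : ℝ) (hw : 5.4982 ≤ w) (hκ1 : 1 ≤ κ) (hκ : 3.68 < κ * (w - 4.68)) :
    ∃ Y₀ : ℝ, 1 ≤ Y₀ ∧ ∀ ξ Y Z : ℝ, Y₀ ≤ Y → Y ≤ Z →
      (∀ X : ℝ, Y ≤ X → X ≤ Z → Near ξ X (X ^ (-w))) → Near ξ (Y ^ κ) (Z ^ (-w)) := by
  obtain ⟨c, hc0, hc⟩ := meas
  obtain ⟨Y0, hY0, h⟩ := Pool.Agent.N909.NR.local_gen zeta3 3.68 c (by norm_num) hc0 hc w κ
    (by nlinarith) (by linarith) hκ1 (by linarith)
  exact ⟨Y0, hY0, fun ξ Y Z hY hZ hU => h ξ Y Z hY hZ hU⟩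

open Pool.Agent.N493.NR in
/-- near relations at all large scales come from an exact relation -/
theorem exact (w κ : ℝ) (hw : 5.4982 ≤ w) (hκ1 : 1 ≤ κ) (hκ : 3.68 < κ * (w - 4.68)) :
    ∃ Y₀ : ℝ, 1 ≤ Y₀ ∧ ∀ ξ Y : ℝ, Y₀ ≤ Y →
      (∀ X : ℝ, Y ≤ X → Near ξ X (X ^ (-w))) → Near ξ (Y ^ κ) 0 := by
  obtain ⟨Y0, hY0, h⟩ := main w κ hw hκ1 hκ
  refine ⟨Y0, hY0, fun ξ Y hY hU => ?_⟩
  have hY1 : 1 ≤ Y := hY0.trans hY
  have hw0 : 0 < w := by linarith
  obtain ⟨v, hv0, hvh, hvmin⟩ := exists_min zeta3 ξ ⌊Y ^ κ⌋₊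
  have hYκ : 0 ≤ Y ^ κ := by positivity
  refine ⟨v, hv0, ?_, ?_⟩
  · have h1 : (height v : ℝ) ≤ (⌊Y ^ κ⌋₊ : ℝ) := by exact_mod_cast hvh
    exact h1.trans (Nat.floor_le hYκ)
  · by_contra hlt
    push Not at hlt
    have htend := tendsto_rpow_neg_atTop hw0
    obtain ⟨Z, hZ1, hZ2⟩ := ((htend.eventually_lt_const hlt).and
      (Filter.eventually_ge_atTop Y)).exists
    obtain ⟨u, hu0, hu1, hu2⟩ := h ξ Y Z hY hZ2 fun X hX _ => hU X hX
    have hu3 : ht u ≤ ⌊Y ^ κ⌋₊ := Nat.le_floor hu1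
    have h4 := hvmin u hu0 hu3
    have h5 : |L zeta3 ξ u| ≤ Z ^ (-w) := hu2
    have h6 : |value ξ v| = |L zeta3 ξ v| := rfl
    rw [h6] at hZ1
    linarith

/-- rational and integral relations -/
theorem dependent_iff (ξ : ℝ) : (¬ LinearIndependent ℚ ![(1 : ℝ), zeta3, ξ]) ↔
    ∃ v : ℤ × ℤ × ℤ, v ≠ 0 ∧ value ξ v = 0 := by
  rw [Fintype.not_linearIndependent_iff]
  constructor
  · rintro ⟨g, hg, i, hi⟩
    rw [Fin.sum_univ_three] at hg
    simp only [Matrix.cons_val_zero, Matrix.cons_val_one, Matrix.cons_val, Rat.smul_def] at hg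
    have e : ∀ k : Fin 3, ((g k).den : ℝ) * (g k : ℝ) = (g k).num := by
      intro k
      have := Rat.den_mul_eq_num (g k)
      exact_mod_cast congrArg (fun z : ℚ => (z : ℝ)) this
    have d : ∀ k : Fin 3, ((g k).den : ℤ) ≠ 0 := fun k => by exact_mod_cast (g k).den_nz
    refine ⟨((g 0).num * (g 1).den * (g 2).den, (g 1).num * (g 0).den * (g 2).den,
      (g 2).num * (g 0).den * (g 1).den), ?_, ?_⟩
    · intro h0
      rw [Prod.ext_iff, Prod.ext_iff] at h0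
      obtain ⟨h1, h2, h3⟩ := h0
      simp only [Prod.fst_zero, Prod.snd_zero] at h1 h2 h3
      have hn : (g i).num ≠ 0 := Rat.num_ne_zero.2 hi
      fin_cases i
      · exact hn (by simpa [d 1, d 2] using h1)
      · exact hn (by simpa [d 0, d 2] using h2)
      · exact hn (by simpa [d 0, d 1] using h3)
    · unfold value
      push_cast
      rw [← e 0, ← e 1, ← e 2]
      linear_combination ((g 0).den : ℝ) * ((g 1).den : ℝ) * ((g 2).den : ℝ) * hg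
  · rintro ⟨v, hv0, hv⟩
    refine ⟨![(v.1 : ℚ), (v.2.1 : ℚ), (v.2.2 : ℚ)], ?_, ?_⟩
    · rw [Fin.sum_univ_three]
      simp only [Matrix.cons_val_zero, Matrix.cons_val_one, Matrix.cons_val, Rat.smul_def]
      push_cast
      unfold value at hv
      linarith
    · by_contra hcon
      push Not at hcon
      apply hv0
      have h0 := hcon 0
      have h1 := hcon 1
      have h2 := hcon 2
      simp only [Matrix.cons_val_zero, Matrix.cons_val_one, Matrix.cons_val] at h0 h1 h2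
      refine Prod.ext ?_ (Prod.ext ?_ ?_)
      · exact_mod_cast h0
      · exact_mod_cast h1
      · exact_mod_cast h2

/-- `ζ(3)` satisfies no relation with integers -/
theorem zeta3_ne (b m : ℤ) (hb : b ≠ 0) : (b : ℝ) * zeta3 ≠ m := by
  obtain ⟨c, hc0, hc⟩ := meas
  intro h
  have h1 := hc b.natAbs (Int.natAbs_pos.2 hb)
  obtain ⟨k, hk⟩ : ∃ k : ℤ, (b.natAbs : ℝ) * zeta3 - k = 0 := by
    have hn : (b.natAbs : ℝ) = |(b : ℝ)| := by rw [Nat.cast_natAbs, Int.cast_abs]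
    rcases abs_cases (b : ℝ) with ⟨h2, _⟩ | ⟨h2, _⟩
    · exact ⟨m, by rw [hn, h2]; linarith⟩
    · refine ⟨-m, ?_⟩
      rw [hn, h2]
      push_cast
      linarith
  have h3 := h1 k
  rw [hk, abs_zero, mul_zero] at h3
  linarith

/-- a relation between `1`, `ζ(3)`, `π ^ 3` -/
theorem pi_case (h : ¬ LinearIndependent ℚ ![(1 : ℝ), zeta3, Real.pi ^ 3]) :
    Transcendental ℚ zeta3 ∧
      ((∃ r : ℚ, zeta3 / Real.pi ^ 3 = r) ∨ Transcendental ℚ (zeta3 / Real.pi ^ 3)) := by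
  rw [dependent_iff] at h
  obtain ⟨v, hv0, hv⟩ := h
  have hπ : Transcendental ℚ (Real.pi ^ 3) := by
    intro h3
    exact Pool.Agent.H340R2.LW.transcendental_pi (IsAlgebraic.of_pow (by norm_num) h3)
  have hπ0 : Real.pi ^ 3 ≠ 0 := by positivity
  unfold value at hv
  -- the coefficient of `π ^ 3`
  have hc : v.2.2 ≠ 0 := by
    intro h0
    rw [h0] at hv
    by_cases hb : v.2.1 = 0
    · rw [hb] at hv
      apply hv0
      have : v.1 = 0 := by
        have h1 : (v.1 : ℝ) = 0 := by push_cast at hv; linarith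
        exact_mod_cast h1
      exact Prod.ext this (Prod.ext hb h0)
    · refine zeta3_ne v.2.1 (-v.1) hb ?_
      push_cast at hv ⊢
      linarith
  have hcR : (v.2.2 : ℝ) ≠ 0 := by exact_mod_cast hc
  have halg : ∀ z : ℤ, IsAlgebraic ℚ ((z : ℤ) : ℝ) := fun z => isAlgebraic_intCast z
  have hb : v.2.1 ≠ 0 := by
    intro h0
    rw [h0] at hv
    apply hπ
    have e : Real.pi ^ 3 = -(v.1 : ℝ) * (v.2.2 : ℝ)⁻¹ := by
      field_simp
      push_cast at hv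
      linarith
    rw [e]
    exact (halg _).neg.mul (halg _).inv
  have hbR : (v.2.1 : ℝ) ≠ 0 := by exact_mod_cast hb
  constructor
  · intro hz
    apply hπ
    have e : Real.pi ^ 3 = -((v.1 : ℝ) + v.2.1 * zeta3) * (v.2.2 : ℝ)⁻¹ := by
      field_simp
      linarith
    rw [e]
    exact (((halg _).add ((halg _).mul hz)).neg).mul (halg _).inv
  · by_cases ha : v.1 = 0
    · left
      refine ⟨-(v.2.2 : ℚ) / v.2.1, ?_⟩
      push_cast
      rw [ha] at hv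
      field_simp
      push_cast at hv
      linarith
    · right
      have haR : (v.1 : ℝ) ≠ 0 := by exact_mod_cast ha
      intro hq
      apply hπ
      have e : Real.pi ^ 3 = -(v.1 : ℝ) * (v.2.1 * (zeta3 / Real.pi ^ 3) + v.2.2)⁻¹ := by
        have h1 : ((v.2.1 : ℝ) * (zeta3 / Real.pi ^ 3) + v.2.2) * Real.pi ^ 3 = -v.1 := by
          field_simp
          linarith
        have h2 : (v.2.1 : ℝ) * (zeta3 / Real.pi ^ 3) + v.2.2 ≠ 0 := by
          intro h3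
          rw [h3, zero_mul] at h1
          apply haR
          linarith
        rw [← h1, mul_comm _ (Real.pi ^ 3), mul_assoc, mul_inv_cancel₀ h2, mul_one]
      rw [e]
      exact (halg _).neg.mul (((halg _).mul hq).add (halg _)).inv

/-- Let `w ≥ 5.4982`.
1. Let `κ ≥ 1`, `κ (w - 4.68) > 3.68`. For large `Y`, all real `ξ` and all `Z ≥ Y`: near relations of
height `≤ X` and value `≤ X ^ (-w)` at all scales `X ∈ [Y, Z]` imply one near relation of height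
`≤ Y ^ κ` and value `≤ Z ^ (-w)`; near relations at all scales `X ≥ Y` imply an exact relation of
height `≤ Y ^ κ`.
2. For every real `ξ`: `1`, `ζ(3)`, `ξ` are linearly dependent over `ℚ` if and only if there are near
relations at all large scales.
3. If this is the case for `ξ = π ^ 3` then `ζ(3)` is transcendental and `ζ(3) / π ^ 3` is rational or
transcendental. -/
theorem result :
    (∀ w κ : ℝ, 5.4982 ≤ w → 1 ≤ κ → 3.68 < κ * (w - 4.68) →
      ∃ Y₀ : ℝ, 1 ≤ Y₀ ∧ ∀ ξ Y : ℝ, Y₀ ≤ Y →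
        (∀ Z : ℝ, Y ≤ Z → (∀ X : ℝ, Y ≤ X → X ≤ Z → Near ξ X (X ^ (-w))) →
          Near ξ (Y ^ κ) (Z ^ (-w))) ∧
        ((∀ X : ℝ, Y ≤ X → Near ξ X (X ^ (-w))) → Near ξ (Y ^ κ) 0)) ∧
    (∀ ξ w : ℝ, 5.4982 ≤ w → ((¬ LinearIndependent ℚ ![(1 : ℝ), zeta3, ξ]) ↔
      ∃ Y : ℝ, ∀ X : ℝ, Y ≤ X → Near ξ X (X ^ (-w)))) ∧
    (∀ w Y : ℝ, 5.4982 ≤ w → (∀ X : ℝ, Y ≤ X → Near (Real.pi ^ 3) X (X ^ (-w))) →
      Transcendental ℚ zeta3 ∧
        ((∃ r : ℚ, zeta3 / Real.pi ^ 3 = r) ∨ Transcendental ℚ (zeta3 / Real.pi ^ 3))) := by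
  have hiff : ∀ ξ w : ℝ, 5.4982 ≤ w → ((¬ LinearIndependent ℚ ![(1 : ℝ), zeta3, ξ]) ↔
      ∃ Y : ℝ, ∀ X : ℝ, Y ≤ X → Near ξ X (X ^ (-w))) := by
    intro ξ w hw
    rw [dependent_iff]
    constructor
    · rintro ⟨v, hv0, hv⟩
      refine ⟨height v, fun X hX => ⟨v, hv0, hX, ?_⟩⟩
      rw [hv, abs_zero]
      have : (0 : ℝ) ≤ X := (Nat.cast_nonneg _).trans hX
      positivity
    · rintro ⟨Y, hU⟩
      obtain ⟨Y0, hY0, h⟩ := exact w 4.5 hw (by norm_num) (by linarith)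
      obtain ⟨v, hv0, -, hv⟩ := h ξ (max Y0 Y) (le_max_left _ _)
        fun X hX => hU X ((le_max_right _ _).trans hX)
      exact ⟨v, hv0, abs_eq_zero.1 (le_antisymm hv (abs_nonneg _))⟩
  refine ⟨?_, hiff, fun w Y hw hU => pi_case ((hiff _ w hw).2 ⟨Y, hU⟩)⟩
  intro w κ hw hκ1 hκ
  obtain ⟨Y1, hY1, h1⟩ := main w κ hw hκ1 hκ
  obtain ⟨Y2, hY2, h2⟩ := exact w κ hw hκ1 hκ
  refine ⟨max Y1 Y2, hY1.trans (le_max_left _ _), fun ξ Y hY => ⟨fun Z hZ hU => ?_, fun hU => ?_⟩⟩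
  · exact h1 ξ Y Z ((le_max_left _ _).trans hY) hZ hU
  · exact h2 ξ Y ((le_max_right _ _).trans hY) hU

end Pool.Agent.Results.MP_e48a95_nt.NearRelationsAllScales
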