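import Pool.Agent.N743.SS.RatG

/-!
# The scale dichotomy for Euler's constant and Gompertz numbers

For an integer `l ≥ 1` and a positive rational number `x` let
`M_l(x) = ∫_0^∞ log (x / t)^l e^(-t) dt` and `δ_l(x) = ∫_0^∞ log (1 + s / x)^l e^(-s) ds`, so
`M_1(1) = γ`, `M_1(x) = γ + log x`, `M_3(1) = γ^3 + γ π^2 / 2 + 2 ζ(3)`, and
`δ_1(1) = ∫_0^∞ e^(-s) / (1 + s) ds` is Gompertz's constant. We consider the numbers
`e^(j x) M_l(x)` and `e^(j x) δ_l(x)`, `j ∈ ℤ`.

A number `u` is near at the scale `X` (with parameters `d`, `θ`) if some nonzero integer polynomial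
of degree at most `d` with coefficients at most `X ^ θ` has a value at most `1 / X` at `u`
(`AlgNear`); for rational approximations: if some fraction with denominator at most `X ^ θ` lies
within `1 / X` of `u` (`RatNear`). We show, for any finite set of these numbers and small `θ`:

* At every large scale at most one of the numbers is near.
* If one of the numbers is algebraic of degree at most `d` (rational) then it is near at all
  large scales and the other numbers are near at no large scale.
* Otherwise every large scale `X` at which one of the numbers, `u` say, is near is followed by a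
  scale `Z ≥ X` such that between `X` and `Z` no other of the numbers is near, and between `Z`
  and `Z ^ M` none of the numbers is near. In particular there are arbitrarily large `Z` such
  that none of the numbers is near at any scale `Y` with `Z < Y ≤ Z ^ M`.

So one of the numbers is algebraic of degree at most `d` (rational) if and only if at every
large scale at least one of the numbers is near. For rational approximations and the three numbers
`γ + log x`, `∫_x^∞ e^(-t) / t dt = e^(-x) δ_1(x)`, `δ_1(x)` the parameters are explicit: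
`3 θ (M + 1) < 1` suffices, for instance `θ = 1 / 10`, `M = 2`.

The proof uses a quantitative form of the theorem of Siegel and Shidlovskii (`SS.E_meas`): for
E-functions `f_1 = 1, …, f_N` over `ℚ` which are linearly independent over `ℚ(z)` and satisfy a linear
differential system without singularity at `1` one has
`|a_1 f_1(1) + ⋯ + a_N f_N(1)| ≥ c(ε) max |a_i|^(-(N - 1) - ε)`.
-/

set_option autoImplicit false

open MeasureTheory Set

namespace Pool.Agent.Results.MP_e48a95_nt.ScaleDichotomy

open Pool.Agent.N743 Pool.Agent.N743.SS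

/-- `e^j γ` and `e^j δ_1(1)` -/
noncomputable def famG (p : Bool × ℤ) : ℝ :=
  Real.exp p.2 * (if p.1 then Real.eulerMascheroniConstant else gom 1 1)

/-- **The scale dichotomy.** (1) The meaning of the numbers. (2) Algebraic approximations of a finite
set of the numbers `e^(j x) M_l(x)`, `e^(j x) δ_l(x)`, where either `M_l(x) ≠ 0` or at most one number
of the first kind occurs. (3) The same for the numbers `e^j γ`, `e^j δ_1(1)`. (4) Rational
approximations of the three numbers `γ + log x`, `e^(-x) δ_1(x)`, `δ_1(x)`, with explicit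
parameters; (5) `x = 1`, `θ = 1 / 10`, `M = 2`. -/
theorem result :
    ((∀ x : ℝ, mom 1 x = Real.eulerMascheroniConstant + Real.log x) ∧
      mom 3 1 = Real.eulerMascheroniConstant ^ 3 + Real.eulerMascheroniConstant * Real.pi ^ 2 / 2 +
        2 * ∑' n : ℕ, 1 / ((n : ℝ) + 1) ^ 3 ∧
      ∀ x : ℝ, 0 < x → gom 1 x = ∫ s in Ioi (0 : ℝ), Real.exp (-s) / (x + s)) ∧
    (∀ (l : ℕ), 1 ≤ l → ∀ x : ℚ, 0 < x → ∀ (ι : Type) [Finite ι] (b : ι → Bool × ℤ),
      Function.Injective b →
      (mom l x ≠ 0 ∨ ∀ i i', (b i).1 = true → (b i').1 = true → i = i') →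
      ∀ (d : ℕ) (M : ℝ), 1 < M → ∃ θ₀ : ℝ, 0 < θ₀ ∧ ∀ θ : ℝ, 0 < θ → θ ≤ θ₀ →
        Dichotomy (fun i => AlgDeg d (fam l x (b i))) (fun X i => AlgNear d θ X (fam l x (b i))) M) ∧
    (∀ (ι : Type) [Finite ι] (b : ι → Bool × ℤ), Function.Injective b →
      ∀ (d : ℕ) (M : ℝ), 1 < M → ∃ θ₀ : ℝ, 0 < θ₀ ∧ ∀ θ : ℝ, 0 < θ → θ ≤ θ₀ →
        Dichotomy (fun i => AlgDeg d (famG (b i))) (fun X i => AlgNear d θ X (famG (b i))) M) ∧
    (∀ x : ℚ, 0 < x → ∀ θ M : ℝ, 0 < θ → 1 < M → 3 * θ * (M + 1) < 1 →
      Dichotomy (fun i => IsRat (three x i)) (fun X i => RatNear θ X (three x i)) M) ∧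
    Dichotomy
      (fun i => IsRat ((![Real.eulerMascheroniConstant, Real.exp (-1) * gom 1 1, gom 1 1] : Fin 3 → ℝ) i))
      (fun X i => RatNear (1 / 10) X
        ((![Real.eulerMascheroniConstant, Real.exp (-1) * gom 1 1, gom 1 1] : Fin 3 → ℝ) i)) 2 := by
  have h2 : ∀ (l : ℕ), 1 ≤ l → ∀ x : ℚ, 0 < x → ∀ (ι : Type) [Finite ι] (b : ι → Bool × ℤ),
      Function.Injective b →
      (mom l x ≠ 0 ∨ ∀ i i', (b i).1 = true → (b i').1 = true → i = i') →
      ∀ (d : ℕ) (M : ℝ), 1 < M → ∃ θ₀ : ℝ, 0 < θ₀ ∧ ∀ θ : ℝ, 0 < θ → θ ≤ θ₀ →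
        Dichotomy (fun i => AlgDeg d (fam l x (b i))) (fun X i => AlgNear d θ X (fam l x (b i))) M := by
    intro l hl x hx ι _ b hb h0 d M hM
    exact dichotomy_alg (fun i => fam l x (b i)) (fun i j hij => joint_fam l hl x hx b hb h0 i j hij) d M hM
  have h4 : ∀ x : ℚ, 0 < x → ∀ θ M : ℝ, 0 < θ → 1 < M → 3 * θ * (M + 1) < 1 →
      Dichotomy (fun i => IsRat (three x i)) (fun X i => RatNear θ X (three x i)) M :=
    fun x hx θ M hθ hM hMθ => dichotomy_rat (three x) (ratR_three x hx) θ M hθ hM hMθ
  have hm1 : mom 1 1 = Real.eulerMascheroniConstant := by rw [mom_one, Real.log_one, add_zero]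
  refine ⟨⟨mom_one, mom_three, fun x hx => Pool.Agent.R352.E.dl_one hx⟩, h2, ?_, h4, ?_⟩
  · intro ι _ b hb d M hM
    have h5 := h2 1 le_rfl 1 one_pos ι b hb (Or.inl (by
      rw [Rat.cast_one, hm1]
      exact (Real.one_half_lt_eulerMascheroniConstant.trans' (by norm_num)).ne')) d M hM
    have e : ∀ p, fam 1 ((1 : ℚ) : ℝ) p = famG p := by
      intro p
      rw [fam, famG, Rat.cast_one, mul_one, hm1]
    simpa only [e] using h5
  · have h5 := h4 1 one_pos (1 / 10) 2 (by norm_num) (by norm_num) (by norm_num)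
    have e : three ((1 : ℚ) : ℝ) = ![Real.eulerMascheroniConstant, Real.exp (-1) * gom 1 1, gom 1 1] := by
      rw [three, Rat.cast_one, hm1]
    rw [e] at h5
    exact h5

end Pool.Agent.Results.MP_e48a95_nt.ScaleDichotomy
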